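import Pool.Agent.W845.HC.Base

set_option autoImplicit false
open scoped Classical
open Filter Topology
open scoped BigOperators

namespace Pool.Agent.W381.HC

open Pool.Agent.W845.PM Pool.Agent.W845.HC Pool.Agent.W803.PM

theorem ext_inf {n : ℕ} (K K' : SimpleGraph (Fin n)) (N N' : Finset (Fin n)) :
    ext K N ⊓ ext K' N' = ext (K ⊓ K') (N ∩ N') := by
  ext a b
  rw [SimpleGraph.inf_adj]
  refine Fin.lastCases ?_ (fun x => ?_) a <;> refine Fin.lastCases ?_ (fun y => ?_) b
  · constructor
    · intro h; exact absurd rfl h.1.ne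
    · intro h; exact absurd rfl h.ne
  · rw [ext_adj_last, ext_adj_last, ext_adj_last, Finset.mem_inter]
  · rw [SimpleGraph.adj_comm, ext_adj_last, SimpleGraph.adj_comm (ext K' N'), ext_adj_last,
      SimpleGraph.adj_comm, ext_adj_last, Finset.mem_inter]
  · rw [ext_adj_castSucc, ext_adj_castSucc, ext_adj_castSucc, SimpleGraph.inf_adj]

theorem ec_ext {n : ℕ} (K : SimpleGraph (Fin n)) (N : Finset (Fin n)) :
    ec (ext K N) = ec K + N.card := ncard_ext K N

theorem ec_zero (H : SimpleGraph (Fin 0)) : ec H = 0 := by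
  have := ncard_le H
  exact Nat.le_zero.1 this

theorem sum_ws_pow (n : ℕ) (q x : ℝ) (N0 : Finset (Fin n)) :
    ∑ N : Finset (Fin n), ws n q N * x ^ (N0 ∩ N).card = (1 - q + q * x) ^ N0.card := by
  have h1 := prodT n q (fun w => if w ∈ N0 then x else 1)
  have h2 : ∀ N : Finset (Fin n), ∏ w ∈ N, (if w ∈ N0 then x else 1) = x ^ (N0 ∩ N).card := by
    intro N
    rw [Finset.prod_ite, Finset.prod_const_one, mul_one, Finset.prod_const,
      Finset.filter_mem_eq_inter, Finset.inter_comm]
  have h3 : ∏ w : Fin n, (1 - q + q * (if w ∈ N0 then x else 1)) =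
      (1 - q + q * x) ^ N0.card := by
    have h4 : ∀ w : Fin n, (1 - q + q * (if w ∈ N0 then x else 1)) =
        if w ∈ N0 then 1 - q + q * x else 1 := by
      intro w
      by_cases h : w ∈ N0
      · simp [h]
      · simp [h]
    rw [Finset.prod_congr rfl fun w _ => h4 w, Finset.prod_ite, Finset.prod_const_one, mul_one,
      Finset.prod_const, Finset.filter_mem_eq_inter, Finset.univ_inter]
  rw [← h3, ← h1]
  exact Finset.sum_congr rfl fun N _ => by rw [h2 N]

theorem genf : S_GENF := by
  intro n
  induction n with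
  | zero =>
    intro q x H
    have h : (fun Q : SimpleGraph (Fin 0) => x ^ ec (H ⊓ Q)) = fun _ => 1 := by
      funext Q
      rw [ec_zero, pow_zero]
    rw [h, (oneT 0 q).1, ec_zero, pow_zero]
  | succ n ih =>
    intro q x H
    have hH := ext_surj H
    set K0 := H.comap Fin.castSucc with hK0
    set N0 := Finset.univ.filter fun x => H.Adj (Fin.last n) (Fin.castSucc x) with hN0
    rw [← hH, extT n q, ec_ext, pow_add, ← ih q x K0, ← sum_ws_pow n q x N0, Finset.mul_sum]
    refine Finset.sum_congr rfl fun N _ => ?_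
    have h : (fun K : SimpleGraph (Fin n) => x ^ ec (ext K0 N0 ⊓ ext K N)) =
        fun K => x ^ ec (K0 ⊓ K) * x ^ (N0 ∩ N).card := by
      funext K
      rw [ext_inf, ec_ext, pow_add]
    rw [h, EG_mul_right]
    ring

end Pool.Agent.W381.HC
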